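import Mathlib

/-!
# Small defect: generalised eigenspaces of similitudes
-/

set_option autoImplicit false

open Module Polynomial

namespace Pool.Agent.W623.Fr

variable {E V : Type*} [Field E] [AddCommGroup V] [Module E V]

theorem rel (B : LinearMap.BilinForm E V) {c : E} {G n : End E V} (hn : n = G - c • 1)
    (hG : ∀ x y, B (G x) (G y) = c ^ 2 * B x y) (x y : V) :
    c * B x (n y) + c * B (n x) y + B (n x) (n y) = 0 := by
  have hg : ∀ z, G z = c • z + n z := by
    intro z
    rw [hn]
    simp
  have h := hG x y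
  rw [hg x, hg y] at h
  simp only [map_add, map_smul, LinearMap.add_apply, LinearMap.smul_apply, smul_eq_mul] at h
  linear_combination h

theorem orth (B : LinearMap.BilinForm E V) {c : E} (hc : c ≠ 0) {n : End E V}
    (hr : ∀ x y, c * B x (n y) + c * B (n x) y + B (n x) (n y) = 0) :
    ∀ (j : ℕ) (v : V), (n ^ j) v = 0 → ∀ y, B v ((n ^ j) y) = 0 := by
  intro j
  induction j with
  | zero =>
    intro v hv y
    have : v = 0 := by simpa using hv
    rw [this]
    simp
  | succ j ih =>
    intro v hv y
    have h1 : (n ^ j) (n v) = 0 := by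
      rw [pow_succ] at hv
      exact hv
    have h2 : (n ^ (j + 1)) y = n ((n ^ j) y) := by
      rw [pow_succ']
      rfl
    have h3 : (n ^ (j + 1)) y = (n ^ j) (n y) := by
      rw [pow_succ]
      rfl
    have h4 := hr v ((n ^ j) y)
    rw [← h2, ih (n v) h1 y, h3, ih (n v) h1 (n y)] at h4
    rw [h3]
    have h5 : c * B v ((n ^ j) (n y)) = 0 := by linear_combination h4
    exact (mul_eq_zero.1 h5).resolve_left hc

theorem base [FiniteDimensional E V] (h2 : (2 : E) ≠ 0) (B : LinearMap.BilinForm E V)
    (hs : ∀ x y, B x y = B y x) (hnd : ∀ x, (∀ y, B x y = 0) → x = 0) {c : E} (hc : c ≠ 0)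
    (G : End E V) (hG : ∀ x y, B (G x) (G y) = c ^ 2 * B x y) (N : Submodule E V)
    (hN : ∀ x ∈ N, G x = c • x) (hNn : ∀ x ∈ N, (∀ y ∈ N, B x y = 0) → x = 0)
    (hdim : finrank E (G.maxGenEigenspace c) ≤ finrank E N + 2) :
    ∀ x ∈ G.maxGenEigenspace c, G x = c • x := by
  classical
  set n : End E V := G - c • 1 with hn
  have hr := rel B hn hG
  have ho := orth B hc hr
  set D := G.maxGenEigenspace c with hD
  have hDm : ∀ x, x ∈ D ↔ ∃ k : ℕ, (n ^ k) x = 0 := by
    intro x
    rw [hD, Module.End.mem_maxGenEigenspace]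
  set K := finrank E V with hK
  have hDK : ∀ x, x ∈ D ↔ (n ^ K) x = 0 := by
    intro x
    rw [hD, Module.End.maxGenEigenspace_eq_genEigenspace_finrank, Module.End.mem_genEigenspace_nat,
      LinearMap.mem_ker]
  have hnN : ∀ x ∈ N, n x = 0 := by
    intro x hx
    rw [hn]
    simp [hN x hx]
  have hND : N ≤ D := by
    intro x hx
    rw [hDm]
    exact ⟨1, by rw [pow_one]; exact hnN x hx⟩
  have hnD : ∀ x ∈ D, n x ∈ D := by
    intro x hx
    rw [hDK] at hx ⊢
    have : (n ^ K) (n x) = n ((n ^ K) x) := by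
      have h := congrArg (fun f : End E V => f x) ((Commute.refl n).pow_left K).eq
      exact h
    rw [this, hx, map_zero]
  -- the orthogonal complement
  have hrf : B.IsRefl := by
    intro x y h
    rw [hs y x]
    exact h
  have hres : (B.restrict N).Nondegenerate := by
    have hsym : (B.restrict N).IsRefl := by
      intro x y h
      have : B y x = 0 := by
        rw [hs]
        exact h
      exact this
    refine (LinearMap.IsRefl.nondegenerate_iff_separatingLeft hsym).2 ?_
    intro x hx
    apply Subtype.ext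
    exact hNn x x.2 fun y hy => hx ⟨y, hy⟩
  have hcompl := LinearMap.BilinForm.isCompl_orthogonal_of_restrict_nondegenerate hrf hres
  set W : Submodule E V := D ⊓ B.orthogonal N with hW
  have hWm : ∀ x, x ∈ W ↔ x ∈ D ∧ ∀ y ∈ N, B y x = 0 := by
    intro x
    rw [hW, Submodule.mem_inf]
    rfl
  have hW2 : finrank E W ≤ 2 := by
    have h3 : N ⊓ W = ⊥ := by
      rw [eq_bot_iff]
      intro x hx
      have h4 : x ∈ N ⊓ B.orthogonal N := ⟨hx.1, ((Submodule.mem_inf.1 hx.2)).2⟩
      rwa [hcompl.inf_eq_bot] at h4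
    have h5 := Submodule.finrank_sup_add_finrank_inf_eq N W
    rw [h3, finrank_bot, add_zero] at h5
    have h6 : finrank E (N ⊔ W : Submodule E V) ≤ finrank E D :=
      Submodule.finrank_mono (sup_le hND inf_le_left)
    omega
  have hnW : ∀ x ∈ W, n x ∈ W := by
    intro x hx
    rw [hWm] at hx ⊢
    refine ⟨hnD x hx.1, fun y hy => ?_⟩
    have h3 := hr y x
    rw [hnN y hy] at h3
    simp only [map_zero, LinearMap.zero_apply, mul_zero, add_zero] at h3
    exact (mul_eq_zero.1 h3).resolve_left hc
  have hn2 : ∀ x ∈ W, n (n x) = 0 := by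
    set nW : End E W := n.restrict hnW with hnWd
    have h3 : IsNilpotent nW := by
      refine ⟨K, ?_⟩
      ext x
      have h4 : (((nW ^ K) x : W) : V) = (n ^ K) (x : V) := by
        rw [hnWd, Module.End.pow_restrict]
        rfl
      rw [h4]
      exact (hDK _).1 ((hWm _).1 x.2).1
    have h4 : nW ^ finrank E W = 0 := by
      have h5 := LinearMap.aeval_self_charpoly nW
      rw [(LinearMap.charpoly_eq_X_pow_iff nW).2 (fun m => ?_)] at h5
      · simpa using h5
      · obtain ⟨k, hk⟩ := h3
        exact ⟨k, by rw [hk]; rfl⟩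
    have h5 : nW ^ 2 = 0 := pow_eq_zero_of_le hW2 h4
    intro x hx
    have h6 : ((nW ^ 2) ⟨x, hx⟩ : W) = 0 := by rw [h5]; rfl
    have h7 := congrArg Subtype.val h6
    rw [pow_two] at h7
    exact h7
  obtain ⟨K1, hK1, hcomplK⟩ : ∃ K1, K ≤ K1 ∧
      IsCompl (LinearMap.ker (n ^ K1)) (LinearMap.range (n ^ K1)) := by
    obtain ⟨a, ha⟩ := Filter.eventually_atTop.1 (LinearMap.eventually_isCompl_ker_pow_range_pow n)
    exact ⟨max K a, le_max_left _ _, ha _ (le_max_right _ _)⟩
  have hnW0 : ∀ w ∈ W, n w = 0 := by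
    intro w hw
    by_contra hne
    set v := n w with hv
    have hvW : v ∈ W := hnW w hw
    have hnv : n v = 0 := hn2 w hw
    have hwv : B w v = 0 := by
      have h3 := hr w w
      have h4 : B v v = 0 := by
        have h5 := hr v w
        rw [hnv] at h5
        simp only [map_zero, LinearMap.zero_apply, mul_zero, add_zero] at h5
        exact (mul_eq_zero.1 h5).resolve_left hc
      rw [← hv, h4, hs v w] at h3
      have h5 : 2 * (c * B w v) = 0 := by linear_combination h3
      have h6 := (mul_eq_zero.1 h5).resolve_left h2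
      exact (mul_eq_zero.1 h6).resolve_left hc
    have hvv : B v v = 0 := by
      have h5 := hr v w
      rw [hnv] at h5
      simp only [map_zero, LinearMap.zero_apply, mul_zero, add_zero] at h5
      exact (mul_eq_zero.1 h5).resolve_left hc
    have hli : LinearIndependent E ![(⟨w, hw⟩ : W), ⟨v, hvW⟩] := by
      rw [LinearIndependent.pair_iff]
      intro s t hst
      have h3 : s • w + t • v = 0 := congrArg Subtype.val hst
      have h4 : s • v = 0 := by
        have := congrArg n h3
        rw [map_add, map_smul, map_smul, hnv, smul_zero, add_zero, map_zero] at this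
        exact this
      have h5 : s = 0 := (smul_eq_zero.1 h4).resolve_right hne
      rw [h5, zero_smul, zero_add] at h3
      exact ⟨h5, (smul_eq_zero.1 h3).resolve_right hne⟩
    have hcard : Fintype.card (Fin 2) = finrank E W := by
      have h3 := hli.fintype_card_le_finrank
      rw [Fintype.card_fin] at h3 ⊢
      omega
    have hspan := hli.span_eq_top_of_card_eq_finrank hcard
    have hvWo : ∀ z ∈ W, B v z = 0 := by
      intro z hz
      have h3 : (⟨z, hz⟩ : W) ∈ Submodule.span E (Set.range ![(⟨w, hw⟩ : W), ⟨v, hvW⟩]) := by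
        rw [hspan]
        trivial
      rw [Matrix.range_cons, Matrix.range_cons, Matrix.range_empty, Set.union_empty,
        Set.singleton_union, Submodule.mem_span_pair] at h3
      obtain ⟨s, t, hst⟩ := h3
      have h4 : s • w + t • v = z := congrArg Subtype.val hst
      rw [← h4, map_add, map_smul, map_smul, hvv, hs v w, hwv]
      simp
    apply hne
    apply hnd
    intro x
    obtain ⟨d, hd, r, hrr, hx⟩ : ∃ d ∈ LinearMap.ker (n ^ K1), ∃ r ∈ LinearMap.range (n ^ K1),
        d + r = x := by
      have := Submodule.mem_sup.1 (show x ∈ LinearMap.ker (n ^ K1) ⊔ LinearMap.range (n ^ K1) by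
        rw [hcomplK.sup_eq_top]; trivial)
      exact this
    obtain ⟨a, ha, b, hb, hab⟩ : ∃ a ∈ N, ∃ b ∈ B.orthogonal N, a + b = d := by
      have := Submodule.mem_sup.1 (show d ∈ N ⊔ B.orthogonal N by
        rw [hcompl.sup_eq_top]; trivial)
      exact this
    have hdD : d ∈ D := (hDm d).2 ⟨K1, hd⟩
    have hbW : b ∈ W := by
      rw [hW, Submodule.mem_inf]
      refine ⟨?_, hb⟩
      have : b = d - a := by rw [← hab]; abel
      rw [this]
      exact D.sub_mem hdD (hND ha)
    obtain ⟨y, hy⟩ := hrr
    have e1 : B v r = 0 := by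
      rw [← hy]
      refine ho K1 v ?_ y
      obtain ⟨j, rfl⟩ := Nat.exists_eq_add_of_le hK1
      rw [add_comm, pow_add]
      change (n ^ j) ((n ^ K) v) = 0
      rw [(hDK v).1 ((hWm v).1 hvW).1, map_zero]
    have e2 : B v a = 0 := by
      rw [hs]
      exact ((hWm v).1 hvW).2 a ha
    rw [← hx, ← hab, map_add, map_add, e1, e2, hvWo b hbW]
    simp
  intro x hx
  obtain ⟨a, ha, b, hb, hab⟩ : ∃ a ∈ N, ∃ b ∈ B.orthogonal N, a + b = x := by
    have := Submodule.mem_sup.1 (show x ∈ N ⊔ B.orthogonal N by
      rw [hcompl.sup_eq_top]; trivial)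
    exact this
  have hbW : b ∈ W := by
    rw [hW, Submodule.mem_inf]
    refine ⟨?_, hb⟩
    have : b = x - a := by rw [← hab]; abel
    rw [this]
    exact D.sub_mem hx (hND ha)
  have h3 : n x = 0 := by
    rw [← hab, map_add, hnN a ha, hnW0 b hbW, add_zero]
  rw [hn] at h3
  simpa [sub_eq_zero] using h3

end Pool.Agent.W623.Fr
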