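import Pool.Agent.W623.Fr.Base

/-!
# The nilpotent part of a similitude has even rank
-/

set_option autoImplicit false

open Module Polynomial

namespace Pool.Agent.W623.Fr

variable {E V : Type*} [Field E] [AddCommGroup V] [Module E V]

theorem even_of_alt [FiniteDimensional E V] (h2 : (2 : E) ≠ 0) (ω : LinearMap.BilinForm E V)
    (ha : ∀ x, ω x x = 0) (U : Submodule E V)
    (hU : ∀ y ∈ U, (∀ x ∈ U, ω x y = 0) → y = 0) : Even (finrank E U) := by
  classical
  by_contra hodd
  rw [Nat.not_even_iff_odd] at hodd
  have hsk : ∀ x y, ω x y = -ω y x := by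
    intro x y
    have h := ha (x + y)
    simp only [map_add, LinearMap.add_apply, ha, zero_add, add_zero] at h
    linear_combination h
  set b := Module.finBasis E U with hb
  set A : Matrix (Fin (finrank E U)) (Fin (finrank E U)) E :=
    Matrix.of fun i j => ω (b i : V) (b j : V) with hA
  have hT : A.transpose = -A := by
    ext i j
    simp only [hA, Matrix.transpose_apply, Matrix.of_apply, Matrix.neg_apply]
    exact hsk _ _
  have h0 : A.det = 0 := by
    have h1 : A.det = -A.det := by
      conv_lhs => rw [← Matrix.det_transpose, hT, Matrix.det_neg, Fintype.card_fin, hodd.neg_one_pow]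
      ring
    have h3 : 2 * A.det = 0 := by linear_combination h1
    exact (mul_eq_zero.1 h3).resolve_left h2
  obtain ⟨v, hv, hAv⟩ := Matrix.exists_mulVec_eq_zero_iff.2 h0
  apply hv
  set y : U := ∑ j, v j • b j with hy
  have hy0 : (y : V) = 0 := by
    refine hU y y.2 fun x hx => ?_
    have h1 : ∀ i, ω (b i : V) (y : V) = 0 := by
      intro i
      have h3 := congrFun hAv i
      rw [Matrix.mulVec, dotProduct] at h3
      simp only [hA, Matrix.of_apply, Pi.zero_apply] at h3
      rw [hy]
      simp only [Submodule.coe_sum, Submodule.coe_smul, map_sum, map_smul, smul_eq_mul]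
      rw [← h3]
      exact Finset.sum_congr rfl fun j _ => mul_comm _ _
    have h4 : x = ∑ i, (b.repr ⟨x, hx⟩ i) • (b i : V) := by
      have h5 := congrArg Subtype.val (b.sum_repr ⟨x, hx⟩)
      simp only [Submodule.coe_sum, Submodule.coe_smul] at h5
      exact h5.symm
    rw [h4]
    simp only [map_sum, map_smul, LinearMap.sum_apply, LinearMap.smul_apply, h1, smul_zero,
      Finset.sum_const_zero]
  have hy1 : y = 0 := Subtype.ext hy0
  have h5 := Fintype.linearIndependent_iff.1 b.linearIndependent v (by rw [← hy, hy1])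
  exact funext h5

theorem main [FiniteDimensional E V] (h2 : (2 : E) ≠ 0) (B : LinearMap.BilinForm E V)
    (hs : ∀ x y, B x y = B y x) (hnd : ∀ x, (∀ y, B x y = 0) → x = 0) {c : E} (hc : c ≠ 0)
    (G : End E V) (hG : ∀ x y, B (G x) (G y) = c ^ 2 * B x y) (N : Submodule E V)
    (hN : ∀ x ∈ N, G x = c • x) (hNn : ∀ x ∈ N, (∀ y ∈ N, B x y = 0) → x = 0) :
    ∃ r : ℕ, finrank E (G.maxGenEigenspace c) = finrank E (G.eigenspace c) + r ∧ Even r ∧
      (r = 0 ∨ finrank E N + r < finrank E (G.maxGenEigenspace c)) := by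
  classical
  set n : End E V := G - c • 1 with hn
  have hr := rel B hn hG
  have ho := orth B hc hr
  set D := G.maxGenEigenspace c with hD
  have hDm : ∀ x, x ∈ D ↔ ∃ k : ℕ, (n ^ k) x = 0 := by
    intro x
    rw [hD, Module.End.mem_maxGenEigenspace]
  set K := finrank E V with hK
  have hDK : ∀ x, x ∈ D ↔ (n ^ K) x = 0 := by
    intro x
    rw [hD, Module.End.maxGenEigenspace_eq_genEigenspace_finrank, Module.End.mem_genEigenspace_nat,
      LinearMap.mem_ker]
  have hnN : ∀ x ∈ N, n x = 0 := by
    intro x hx
    rw [hn]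
    simp [hN x hx]
  have hND : N ≤ D := by
    intro x hx
    rw [hDm]
    exact ⟨1, by rw [pow_one]; exact hnN x hx⟩
  have hnD : ∀ x ∈ D, n x ∈ D := by
    intro x hx
    rw [hDK] at hx ⊢
    have : (n ^ K) (n x) = n ((n ^ K) x) := by
      have h := congrArg (fun f : End E V => f x) ((Commute.refl n).pow_left K).eq
      exact h
    rw [this, hx, map_zero]
  have hrf : B.IsRefl := by
    intro x y h
    rw [hs y x]
    exact h
  have hres : (B.restrict N).Nondegenerate := by
    have hsym : (B.restrict N).IsRefl := by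
      intro x y h
      have : B y x = 0 := by
        rw [hs]
        exact h
      exact this
    refine (LinearMap.IsRefl.nondegenerate_iff_separatingLeft hsym).2 ?_
    intro x hx
    apply Subtype.ext
    exact hNn x x.2 fun y hy => hx ⟨y, hy⟩
  have hcompl := LinearMap.BilinForm.isCompl_orthogonal_of_restrict_nondegenerate hrf hres
  set W : Submodule E V := D ⊓ B.orthogonal N with hW
  have hWm : ∀ x, x ∈ W ↔ x ∈ D ∧ ∀ y ∈ N, B y x = 0 := by
    intro x
    rw [hW, Submodule.mem_inf]
    rfl
  have hNW : N ⊓ W = ⊥ := by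
    rw [eq_bot_iff]
    intro x hx
    have h4 : x ∈ N ⊓ B.orthogonal N := ⟨hx.1, ((Submodule.mem_inf.1 hx.2)).2⟩
    rwa [hcompl.inf_eq_bot] at h4
  have hdec : ∀ d ∈ D, ∃ a ∈ N, ∃ b ∈ W, a + b = d := by
    intro d hd
    obtain ⟨a, ha, b, hb, hab⟩ : ∃ a ∈ N, ∃ b ∈ B.orthogonal N, a + b = d := by
      have := Submodule.mem_sup.1 (show d ∈ N ⊔ B.orthogonal N by
        rw [hcompl.sup_eq_top]; trivial)
      exact this
    refine ⟨a, ha, b, ?_, hab⟩
    rw [hW, Submodule.mem_inf]
    refine ⟨?_, hb⟩
    have : b = d - a := by rw [← hab]; abel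
    rw [this]
    exact D.sub_mem hd (hND ha)
  have hDsum : finrank E D = finrank E N + finrank E W := by
    have h5 := Submodule.finrank_sup_add_finrank_inf_eq N W
    rw [hNW, finrank_bot, add_zero] at h5
    have h6 : N ⊔ W = D := by
      apply le_antisymm (sup_le hND inf_le_left)
      intro d hd
      obtain ⟨a, ha, b, hb, hab⟩ := hdec d hd
      exact Submodule.mem_sup.2 ⟨a, ha, b, hb, hab⟩
    rw [← h6, h5]
  have hnW : ∀ x ∈ W, n x ∈ W := by
    intro x hx
    rw [hWm] at hx ⊢
    refine ⟨hnD x hx.1, fun y hy => ?_⟩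
    have h3 := hr y x
    rw [hnN y hy] at h3
    simp only [map_zero, LinearMap.zero_apply, mul_zero, add_zero] at h3
    exact (mul_eq_zero.1 h3).resolve_left hc
  set nW : End E W := n.restrict hnW with hnWd
  have hnWx : ∀ x : W, ((nW x : W) : V) = n x := fun x => rfl
  have hnil : nW ^ K = 0 := by
    ext x
    have h4 : (((nW ^ K) x : W) : V) = (n ^ K) (x : V) := by
      rw [hnWd, Module.End.pow_restrict]
      rfl
    rw [h4]
    exact (hDK _).1 ((hWm _).1 x.2).1
  -- nondegeneracy on W
  obtain ⟨K1, hK1, hcomplK⟩ : ∃ K1, K ≤ K1 ∧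
      IsCompl (LinearMap.ker (n ^ K1)) (LinearMap.range (n ^ K1)) := by
    obtain ⟨a, ha⟩ := Filter.eventually_atTop.1 (LinearMap.eventually_isCompl_ker_pow_range_pow n)
    exact ⟨max K a, le_max_left _ _, ha _ (le_max_right _ _)⟩
  have hWnd : ∀ v ∈ W, (∀ z ∈ W, B v z = 0) → v = 0 := by
    intro v hvW hvWo
    apply hnd
    intro x
    obtain ⟨d, hd, r, hrr, hx⟩ : ∃ d ∈ LinearMap.ker (n ^ K1), ∃ r ∈ LinearMap.range (n ^ K1),
        d + r = x := by
      have := Submodule.mem_sup.1 (show x ∈ LinearMap.ker (n ^ K1) ⊔ LinearMap.range (n ^ K1) by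
        rw [hcomplK.sup_eq_top]; trivial)
      exact this
    obtain ⟨a, ha, b, hb, hab⟩ := hdec d ((hDm d).2 ⟨K1, hd⟩)
    obtain ⟨y, hy⟩ := hrr
    have e1 : B v r = 0 := by
      rw [← hy]
      refine ho K1 v ?_ y
      obtain ⟨j, rfl⟩ := Nat.exists_eq_add_of_le hK1
      rw [add_comm, pow_add]
      change (n ^ j) ((n ^ K) v) = 0
      rw [(hDK v).1 ((hWm v).1 hvW).1, map_zero]
    have e2 : B v a = 0 := by
      rw [hs]
      exact ((hWm v).1 hvW).2 a ha
    rw [← hx, ← hab, map_add, map_add, e1, e2, hvWo b hb]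
    simp
  -- the kernel
  have hker : finrank E (G.eigenspace c) = finrank E N + finrank E (LinearMap.ker nW) := by
    set Z : Submodule E V := (LinearMap.ker nW).map W.subtype with hZ
    have hZm : ∀ x, x ∈ Z ↔ x ∈ W ∧ n x = 0 := by
      intro x
      rw [hZ, Submodule.mem_map]
      constructor
      · rintro ⟨y, hy, rfl⟩
        refine ⟨y.2, ?_⟩
        have := congrArg Subtype.val (LinearMap.mem_ker.1 hy)
        exact this
      · rintro ⟨hx, hx0⟩
        refine ⟨⟨x, hx⟩, ?_, rfl⟩
        rw [LinearMap.mem_ker]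
        exact Subtype.ext hx0
    have h5 := Submodule.finrank_sup_add_finrank_inf_eq N Z
    have h6 : N ⊓ Z = ⊥ := by
      rw [eq_bot_iff, ← hNW]
      exact inf_le_inf_left _ fun x hx => ((hZm x).1 hx).1
    have h7 : N ⊔ Z = G.eigenspace c := by
      apply le_antisymm
      · refine sup_le (fun x hx => ?_) fun x hx => ?_
        · rw [Module.End.mem_eigenspace_iff]
          exact hN x hx
        · rw [Module.End.mem_eigenspace_iff]
          have h8 := ((hZm x).1 hx).2
          rw [hn] at h8
          simpa [sub_eq_zero] using h8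
      · intro x hx
        rw [Module.End.mem_eigenspace_iff] at hx
        have hx0 : n x = 0 := by
          rw [hn]
          simp [hx]
        have hxD : x ∈ D := (hDm x).2 ⟨1, by rw [pow_one]; exact hx0⟩
        obtain ⟨a, ha, b, hb, hab⟩ := hdec x hxD
        refine Submodule.mem_sup.2 ⟨a, ha, b, (hZm b).2 ⟨hb, ?_⟩, hab⟩
        rw [← hab, map_add, hnN a ha, zero_add] at hx0
        exact hx0
    have h8 : finrank E Z = finrank E (LinearMap.ker nW) := by
      rw [hZ]
      exact Submodule.finrank_map_subtype_eq W (LinearMap.ker nW)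
    rw [h6, finrank_bot, add_zero, h7, h8] at h5
    exact h5
  have hrn := LinearMap.finrank_range_add_finrank_ker nW
  refine ⟨finrank E (LinearMap.range nW), by omega, ?_, ?_⟩
  · -- even
    set ω : LinearMap.BilinForm E V := B.compl₁₂ ((2 * c) • (1 : End E V) + n) n with hω
    have hωa : ∀ x y, ω x y = B ((2 * c) • x + n x) (n y) := fun x y => rfl
    have halt : ∀ x, ω x x = 0 := by
      intro x
      rw [hωa]
      have h3 := hr x x
      rw [hs (n x) x] at h3
      simp only [map_add, map_smul, LinearMap.add_apply, LinearMap.smul_apply, smul_eq_mul]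
      linear_combination h3
    have hsk : ∀ x y, ω x y = -ω y x := by
      intro x y
      have h := halt (x + y)
      simp only [map_add, LinearMap.add_apply, halt, zero_add, add_zero] at h
      linear_combination h
    obtain ⟨U, hU⟩ := Submodule.exists_isCompl (LinearMap.ker nW)
    have hUr : finrank E (U.map W.subtype) = finrank E (LinearMap.range nW) := by
      rw [Submodule.finrank_map_subtype_eq]
      have h3 := Submodule.finrank_add_eq_of_isCompl hU
      omega
    rw [← hUr]
    refine even_of_alt h2 ω halt _ ?_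
    rintro _ ⟨y, hyU, rfl⟩ hy
    have hc2 : (2 * c) ≠ 0 := mul_ne_zero h2 hc
    have hinj : Function.Injective ((2 * c) • (1 : End E W) + nW) := by
      rw [injective_iff_map_eq_zero]
      intro x hx
      have h3 : nW x = (-(2 * c)) • x := by
        have h4 : (2 * c) • x + nW x = 0 := hx
        rw [neg_smul]
        exact eq_neg_of_add_eq_zero_right h4
      have h4 : ∀ j : ℕ, (nW ^ j) x = (-(2 * c)) ^ j • x := by
        intro j
        induction j with
        | zero => simp
        | succ j ih =>
          rw [pow_succ']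
          change nW ((nW ^ j) x) = _
          rw [ih, map_smul, h3, smul_smul, ← pow_succ]
      have h5 := h4 K
      rw [hnil] at h5
      have h6 : (-(2 * c)) ^ K • x = 0 := by
        rw [← h5]
        rfl
      exact (smul_eq_zero.1 h6).resolve_left (pow_ne_zero _ (neg_ne_zero.2 hc2))
    have hsurj := LinearMap.surjective_of_injective hinj
    have hall : ∀ x : W, ω (x : V) (y : V) = 0 := by
      intro x
      obtain ⟨k, hk, u, hu, hx⟩ : ∃ k ∈ LinearMap.ker nW, ∃ u ∈ U, k + u = x := by
        have := Submodule.mem_sup.1 (show x ∈ LinearMap.ker nW ⊔ U by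
          rw [hU.sup_eq_top]; trivial)
        exact this
      have h3 : ω (u : V) (y : V) = 0 := hy _ ⟨u, hu, rfl⟩
      have h4 : ω (k : V) (y : V) = 0 := by
        rw [hsk, hωa]
        have h5 : n (k : V) = 0 := congrArg Subtype.val (LinearMap.mem_ker.1 hk)
        rw [h5]
        simp
      rw [← hx, Submodule.coe_add, map_add, LinearMap.add_apply, h3, h4, add_zero]
    have hny : n (y : V) = 0 := by
      refine hWnd _ (hnW _ y.2) fun z hz => ?_
      obtain ⟨x, hx⟩ := hsurj ⟨z, hz⟩
      have h3 := hall x
      rw [hωa] at h3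
      have h4 : (2 * c) • (x : V) + n x = z := congrArg Subtype.val hx
      rw [h4] at h3
      rw [hs]
      exact h3
    have hyk : y ∈ LinearMap.ker nW := by
      rw [LinearMap.mem_ker]
      exact Subtype.ext hny
    have hy0 : y ∈ LinearMap.ker nW ⊓ U := ⟨hyk, hyU⟩
    rw [hU.inf_eq_bot, Submodule.mem_bot] at hy0
    rw [hy0]
    simp
  · by_cases h0 : finrank E W = 0
    · left
      omega
    · right
      have h3 : finrank E (LinearMap.ker nW) ≠ 0 := by
        intro h4
        have h5 : LinearMap.ker nW = ⊥ := Submodule.finrank_eq_zero.1 h4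
        have h6 : Function.Injective nW := LinearMap.ker_eq_bot.1 h5
        have h7 : Function.Injective (nW ^ K) := by
          rw [Module.End.coe_pow]
          exact h6.iterate K
        apply h0
        rw [finrank_zero_iff_forall_zero]
        intro x
        apply h7
        rw [hnil]
        rfl
      omega

end Pool.Agent.W623.Fr
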